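import Mathlib
import Pool.Agent.Lib.BergExt.Final

/-!
# Bergman extremal functions: Hardy regularity fails below the dual exponent

For `1 < p < 4/3`, `q = p/(p-1)` (so `q > 4`) and `1 < q₁ < q/4` there is a kernel `k`, not
identically zero, in the Bergman space `A^q` and in the Hardy space `H^{q₁}`, whose extremal
function `F` in `A^p` is not in the Hardy space `H^{(p-1)q₁}`.

Idea: `F` is a constant multiple of `exp((4/p) L)`, where `L` is a very lacunary sum of logarithms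
of `(1 + R z^N)/(1 - R z^N)`, and `k` is the Bergman projection of `|F|^{p-2} F`.
-/

set_option autoImplicit false

open MeasureTheory Complex Filter Topology Pool.Agent.Lib.BergExt
open scoped ComplexConjugate ENNReal

namespace Pool.Agent.Results.MP_5c226d_an.HardyRegularityFails

/-- Area measure on the open unit disc, normalised to have total mass one. -/
noncomputable def area : Measure ℂ :=
  (ENNReal.ofReal Real.pi)⁻¹ • (volume.restrict (Metric.ball (0 : ℂ) 1))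

/-- `f` is in the Bergman space `A^s`: analytic in the open unit disc, with `∫ |f|^s` finite. -/
def InBergman (s : ℝ) (f : ℂ → ℂ) : Prop :=
  DifferentiableOn ℂ f (Metric.ball 0 1) ∧ Integrable (fun z => ‖f z‖ ^ s) area

/-- The Bergman norm `(∫ |f|^s)^(1/s)`. -/
noncomputable def bergmanNorm (s : ℝ) (f : ℂ → ℂ) : ℝ := (∫ z, ‖f z‖ ^ s ∂area) ^ (1 / s)

/-- `f` is in the Hardy space `H^s`: analytic in the open unit disc, with bounded means
`(1/2π) ∫ |f(re^{iθ})|^s dθ`, `0 < r < 1`. -/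
def InHardy (s : ℝ) (f : ℂ → ℂ) : Prop :=
  DifferentiableOn ℂ f (Metric.ball 0 1) ∧
    ∃ C : ℝ, ∀ r : ℝ, 0 < r → r < 1 →
      (1 / (2 * Real.pi)) * ∫ θ in (0 : ℝ)..(2 * Real.pi), ‖f (r * exp (θ * I))‖ ^ s ≤ C

/-- The functional with kernel `k`: `φ_k(f) = ∫ f conj(k)`. -/
noncomputable def phi (k f : ℂ → ℂ) : ℂ := ∫ z, f z * conj (k z) ∂area

/-- `F` is an extremal function for `k` in `A^p`: it has norm one and maximises `Re φ_k` among
the functions of norm one. -/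
def IsExtremal (p : ℝ) (k F : ℂ → ℂ) : Prop :=
  InBergman p F ∧ bergmanNorm p F = 1 ∧
    ∀ g : ℂ → ℂ, InBergman p g → bergmanNorm p g = 1 → (phi k g).re ≤ (phi k F).re

theorem area_eq : area = μD := rfl

theorem memLp_of {s : ℝ} (hs : 0 < s) {f : ℂ → ℂ} (hf : InBergman s f) :
    MemLp f (ENNReal.ofReal s) μD := by
  rw [← integrable_norm_rpow_iff (aesm_of_continuousOn hf.1.continuousOn) (by simpa using hs)
    ENNReal.ofReal_ne_top, ENNReal.toReal_ofReal hs.le]
  exact hf.2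

theorem inBergman_of {s : ℝ} (hs : 0 < s) {f : ℂ → ℂ} (hd : DifferentiableOn ℂ f (Metric.ball 0 1))
    (hf : MemLp f (ENNReal.ofReal s) μD) : InBergman s f := by
  refine ⟨hd, ?_⟩
  have := hf.integrable_norm_rpow (by simpa using hs) ENNReal.ofReal_ne_top
  rwa [ENNReal.toReal_ofReal hs.le] at this

theorem int_one {s : ℝ} (hs : 0 < s) {f : ℂ → ℂ} (h : bergmanNorm s f = 1) :
    ∫ z, ‖f z‖ ^ s ∂μD = 1 := by
  have h0 : 0 ≤ ∫ z, ‖f z‖ ^ s ∂μD := integral_nonneg fun z => by positivity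
  have h1 : ((∫ z, ‖f z‖ ^ s ∂μD) ^ (1 / s)) ^ s = 1 ^ s := by
    have h2 : (∫ z, ‖f z‖ ^ s ∂μD) ^ (1 / s) = 1 := h
    rw [h2]
  rw [← Real.rpow_mul h0, one_div, inv_mul_cancel₀ hs.ne', Real.rpow_one, Real.one_rpow] at h1
  exact h1

theorem inHardy_of {s : ℝ} (hs : 0 < s) {f : ℂ → ℂ} (hd : DifferentiableOn ℂ f (Metric.ball 0 1))
    (hf : ∀ ρ : ℝ, 0 ≤ ρ → ρ < 1 → eLpNorm (fun θ => f (ρ * eit θ)) (ENNReal.ofReal s) μT ≤ 3) :
    InHardy s f := by
  refine ⟨hd, 3 ^ s, fun r hr0 hr1 => ?_⟩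
  have hc := circle_continuous hd.continuousOn hr0.le hr1
  have h3 := hf r hr0.le hr1
  have hmem : MemLp (fun θ => f (r * eit θ)) (ENNReal.ofReal s) μT :=
    ⟨hc.aestronglyMeasurable, h3.trans_lt (by simp)⟩
  rw [hmem.eLpNorm_eq_integral_rpow_norm (by simpa using hs) ENNReal.ofReal_ne_top,
    ENNReal.toReal_ofReal hs.le] at h3
  have h4 : (3 : ℝ≥0∞) = ENNReal.ofReal 3 := by simp
  rw [h4, ENNReal.ofReal_le_ofReal_iff (by norm_num)] at h3
  have h0 : 0 ≤ ∫ θ, ‖f (r * eit θ)‖ ^ s ∂μT := integral_nonneg fun z => by positivity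
  have h5 : ∫ θ, ‖f (r * eit θ)‖ ^ s ∂μT ≤ 3 ^ s := by
    have h6 := Real.rpow_le_rpow (by positivity) h3 hs.le
    rwa [← Real.rpow_mul h0, inv_mul_cancel₀ hs.ne', Real.rpow_one] at h6
  have h7 := integral_μT (fun θ => ‖f (r * eit θ)‖ ^ s)
  rw [smul_eq_mul] at h7
  rw [h7] at h5
  exact h5

/-- The main theorem. -/
theorem result (p q q₁ : ℝ) (hp : 1 < p) (hp' : p < 4 / 3) (hq : q = p / (p - 1))
    (h1 : 1 < q₁) (h2 : q₁ < q / 4) :
    ∃ k F : ℂ → ℂ,
      InBergman q k ∧ InHardy q₁ k ∧ (∃ z, ‖z‖ < 1 ∧ k z ≠ 0) ∧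
      IsExtremal p k F ∧ (∀ G, IsExtremal p k G → ∀ z, ‖z‖ < 1 → G z = F z) ∧
      ¬ InHardy ((p - 1) * q₁) F := by
  have hp0 : 0 < p := by linarith
  have hp1 : 0 < p - 1 := by linarith
  have hq0 : 0 < q := by rw [hq]; positivity
  have hq4 : 4 < q := by linarith
  have hs0 : 0 < q₁ := by linarith
  set β : ℝ := 4 / p - 2 with hβdef
  have hβ0 : 0 ≤ β := by
    have : 2 ≤ 4 / p := by
      rw [le_div_iff₀ hp0]
      linarith
    linarith
  have hpq : p⁻¹ + q⁻¹ = 1 := by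
    rw [hq]
    field_simp
    ring
  have hβ : 2 - 1 / q₁ < β := by
    have h3 : 4 / q < 1 / q₁ := by
      rw [div_lt_div_iff₀ hq0 hs0]
      linarith
    have h4 : 4 / q = 4 - 4 / p := by
      have h5 : q⁻¹ = 1 - p⁻¹ := by linarith
      rw [div_eq_mul_inv, h5, div_eq_mul_inv]
      ring
    linarith
  have hconj : (ENNReal.ofReal p).HolderConjugate (ENNReal.ofReal q) :=
    Real.HolderConjugate.ennrealOfReal (Real.holderConjugate_iff.2 ⟨hp, hpq⟩)
  obtain ⟨R, N, hRN, hΨ, hk, hcirc, hdual⟩ :=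
    exists_limit hβ0 h1.le (by linarith : (1 : ℝ) ≤ q) hβ
  set L : ℂ → ℂ := Linf R N with hLdef
  have hL : DifferentiableOn ℂ L (Metric.ball 0 1) := diff_Linf hRN
  set Ψ : ℂ → ℂ := Psi β L with hΨdef
  set k : ℂ → ℂ := PP Ψ with hkdef
  have hq1' : (1 : ℝ≥0∞) ≤ ENNReal.ofReal q := by
    rw [← ENNReal.ofReal_one]
    exact ENNReal.ofReal_le_ofReal (by linarith)
  have hp1' : (1 : ℝ≥0∞) ≤ ENNReal.ofReal p := by
    rw [← ENNReal.ofReal_one]
    exact ENNReal.ofReal_le_ofReal hp.le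
  have hΨint : Integrable Ψ μD := memLp_one_iff_integrable.1 (hΨ.mono_exponent hq1')
  have hkd : DifferentiableOn ℂ k (Metric.ball 0 1) := PP_diff hΨint
  -- the energy density
  set E : ℂ → ℝ := fun z => Real.exp (4 * (L z).re) with hEdef
  have hΨnorm : ∀ z, ‖Ψ z‖ = Real.exp ((4 - 4 / p) * (L z).re) := by
    intro z
    rw [hΨdef, Psi, norm_exp]
    congr 1
    simp [hβdef]
    ring
  have hΨq : ∀ z, ‖Ψ z‖ ^ q = E z := by
    intro z
    rw [hΨnorm, ← Real.exp_mul, hEdef]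
    congr 1
    have h5 : (4 - 4 / p) * q = 4 := by
      rw [hq]
      field_simp
    calc (4 - 4 / p) * (L z).re * q = ((4 - 4 / p) * q) * (L z).re := by ring
      _ = 4 * (L z).re := by rw [h5]
  have hEint : Integrable E μD := by
    have := hΨ.integrable_norm_rpow (by simpa using hq0) ENNReal.ofReal_ne_top
    rw [ENNReal.toReal_ofReal hq0.le] at this
    simp_rw [hΨq] at this
    exact this
  have hEpos : ∀ z, 0 < E z := fun z => Real.exp_pos _
  set J : ℝ := ∫ z, E z ∂μD with hJ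
  have hJ0 : 0 < J := by
    rw [hJ, integral_pos_iff_support_of_nonneg (fun z => (hEpos z).le) hEint]
    have : Function.support E = Set.univ := by
      ext z
      simp [(hEpos z).ne']
    rw [this]
    simp
  set τ : ℝ := J ^ (1 / p) with hτ
  have hτ0 : 0 < τ := Real.rpow_pos_of_pos hJ0 _
  have hτp : τ ^ p = J := by
    rw [hτ, ← Real.rpow_mul hJ0.le, one_div, inv_mul_cancel₀ hp0.ne', Real.rpow_one]
  -- the extremal function
  set F : ℂ → ℂ := fun z => exp (((4 / p : ℝ) : ℂ) * L z) * ((τ⁻¹ : ℝ) : ℂ) with hF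
  have hFd : DifferentiableOn ℂ F (Metric.ball 0 1) := by
    rw [hF]
    exact ((hL.const_mul _).cexp).mul_const _
  have hFne : ∀ z, F z ≠ 0 := by
    intro z
    rw [hF]
    refine mul_ne_zero (exp_ne_zero _) ?_
    exact_mod_cast (inv_pos.2 hτ0).ne'
  have hFnorm : ∀ z, ‖F z‖ = Real.exp ((4 / p) * (L z).re) * τ⁻¹ := by
    intro z
    rw [hF]
    simp only []
    rw [norm_mul, norm_exp, Complex.norm_real, Real.norm_of_nonneg (inv_pos.2 hτ0).le,
      re_ofReal_mul]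
  have hFp : ∀ z, ‖F z‖ ^ p = E z / J := by
    intro z
    rw [hFnorm, Real.mul_rpow (Real.exp_pos _).le (inv_pos.2 hτ0).le, ← Real.exp_mul,
      Real.inv_rpow hτ0.le, hτp, div_eq_mul_inv, hEdef]
    congr 2
    field_simp
  have hFB : InBergman p F := by
    refine ⟨hFd, ?_⟩
    simp_rw [hFp]
    exact hEint.div_const J
  have hFint1 : ∫ z, ‖F z‖ ^ p ∂μD = 1 := by
    simp_rw [hFp]
    rw [integral_div, ← hJ, div_self hJ0.ne']
  have hFone : bergmanNorm p F = 1 := by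
    unfold bergmanNorm
    rw [area_eq, hFint1, Real.one_rpow]
  -- the identity between `Ψ` and `F`
  have hΨF : ∀ z, Ψ z = ((τ ^ (p - 1) * ‖F z‖ ^ (p - 2) : ℝ) : ℂ) * F z := by
    intro z
    have h3 : τ ^ (p - 1) * ‖F z‖ ^ (p - 2) * τ⁻¹ =
        Real.exp ((4 / p) * (p - 2) * (L z).re) := by
      rw [hFnorm, Real.mul_rpow (Real.exp_pos _).le (inv_pos.2 hτ0).le, ← Real.exp_mul,
        Real.inv_rpow hτ0.le]
      have h4 : τ ^ (p - 1) = τ ^ (p - 2) * τ := by
        conv_rhs => rw [← Real.rpow_one τ]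
        rw [Real.rpow_one τ, ← Real.rpow_add_one hτ0.ne']
        congr 1
        ring
      have h5 : τ ^ (p - 2) ≠ 0 := (Real.rpow_pos_of_pos hτ0 _).ne'
      rw [h4]
      field_simp
    have h6 : ((τ ^ (p - 1) * ‖F z‖ ^ (p - 2) : ℝ) : ℂ) * F z =
        ((τ ^ (p - 1) * ‖F z‖ ^ (p - 2) * τ⁻¹ : ℝ) : ℂ) * exp (((4 / p : ℝ) : ℂ) * L z) := by
      rw [hF]
      push_cast
      ring
    rw [h6, h3, ofReal_exp, ← exp_add, hΨdef, Psi]
    congr 1
    have h7 : ((L z).re : ℂ) = (L z + conj (L z)) / 2 := by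
      rw [add_conj]
      push_cast
      ring
    have hpc : (p : ℂ) ≠ 0 := by exact_mod_cast hp0.ne'
    push_cast
    rw [h7, hβdef]
    push_cast
    field_simp
    ring
  -- the functional
  have hphi : ∀ g, InBergman p g → phi k g = ∫ z, g z * conj (Ψ z) ∂μD := by
    intro g hg
    unfold phi
    rw [area_eq]
    exact (hdual (ENNReal.ofReal p) hp1' hconj g (memLp_of hp0 hg) hg.1).symm
  have hgΨint : ∀ g, InBergman p g → Integrable (fun z => g z * conj (Ψ z)) μD := by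
    intro g hg
    have hm : MemLp (fun z => conj (Ψ z)) (ENNReal.ofReal q) μD := hΨ.star
    have h3 : MemLp (fun z => g z * conj (Ψ z)) 1 μD := by
      have := hconj
      exact MemLp.mul' (p := ENNReal.ofReal p) (q := ENNReal.ofReal q) hm (memLp_of hp0 hg)
    exact memLp_one_iff_integrable.1 h3
  have hre : ∀ g, InBergman p g →
      (phi k g).re = ∫ z, τ ^ (p - 1) * ((g z * conj (F z)).re * ‖F z‖ ^ (p - 2)) ∂μD := by
    intro g hg
    rw [hphi g hg]
    have h3 := integral_re (hgΨint g hg)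
    simp only [RCLike.re_eq_complex_re] at h3
    rw [← h3]
    refine integral_congr_ae (ae_of_all _ fun z => ?_)
    simp only []
    rw [hΨF z, map_mul, conj_ofReal]
    have h4 : g z * (((τ ^ (p - 1) * ‖F z‖ ^ (p - 2) : ℝ) : ℂ) * conj (F z)) =
        ((τ ^ (p - 1) * ‖F z‖ ^ (p - 2) : ℝ) : ℂ) * (g z * conj (F z)) := by ring
    rw [h4, re_ofReal_mul]
    ring
  have hτp0 : 0 < τ ^ (p - 1) := Real.rpow_pos_of_pos hτ0 _
  have hprodint : ∀ g, InBergman p g →
      Integrable (fun z => (g z * conj (F z)).re * ‖F z‖ ^ (p - 2)) μD := by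
    intro g hg
    have h3 := (hgΨint g hg).re
    have h4 : (fun z => (g z * conj (F z)).re * ‖F z‖ ^ (p - 2)) =
        fun z => (τ ^ (p - 1))⁻¹ * RCLike.re (g z * conj (Ψ z)) := by
      funext z
      have h6 : conj (Ψ z) = ((τ ^ (p - 1) * ‖F z‖ ^ (p - 2) : ℝ) : ℂ) * conj (F z) := by
        rw [hΨF z]
        simp only [map_mul, conj_ofReal]
      have h5 : g z * (((τ ^ (p - 1) * ‖F z‖ ^ (p - 2) : ℝ) : ℂ) * conj (F z)) =
          ((τ ^ (p - 1) * ‖F z‖ ^ (p - 2) : ℝ) : ℂ) * (g z * conj (F z)) := by ring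
      rw [RCLike.re_eq_complex_re, h6, h5, re_ofReal_mul]
      field_simp
    rw [h4]
    exact h3.const_mul _
  have hbound : ∀ g, InBergman p g → Integrable
      (fun z => ‖g z‖ ^ p / p + ‖F z‖ ^ p * (1 - 1 / p)) μD := by
    intro g hg
    exact (hg.2.div_const p).add (hFB.2.mul_const _)
  have hboundint : ∀ g, InBergman p g → bergmanNorm p g = 1 →
      ∫ z, (‖g z‖ ^ p / p + ‖F z‖ ^ p * (1 - 1 / p)) ∂μD = 1 := by
    intro g hg hg1
    have i1 : Integrable (fun z => ‖g z‖ ^ p / p) μD := hg.2.div_const p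
    have i2 : Integrable (fun z => ‖F z‖ ^ p * (1 - 1 / p)) μD := hFB.2.mul_const _
    rw [integral_add i1 i2, integral_div, integral_mul_const, int_one hp0 hg1, hFint1]
    ring
  have hFval : (phi k F).re = τ ^ (p - 1) := by
    rw [hre F hFB, integral_const_mul]
    have h3 : ∀ z, (F z * conj (F z)).re * ‖F z‖ ^ (p - 2) = ‖F z‖ ^ p := by
      intro z
      rw [mul_conj, normSq_eq_norm_sq, ofReal_re]
      have h4 : 0 < ‖F z‖ := norm_pos_iff.2 (hFne z)
      have h5 : ‖F z‖ ^ 2 = ‖F z‖ ^ (2 : ℝ) := (Real.rpow_two _).symm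
      rw [h5, ← Real.rpow_add h4]
      congr 1
      ring
    simp_rw [h3]
    rw [hFint1, mul_one]
  have hmax : ∀ g, InBergman p g → bergmanNorm p g = 1 → (phi k g).re ≤ (phi k F).re := by
    intro g hg hg1
    rw [hFval, hre g hg, integral_const_mul]
    have h3 : ∫ z, (g z * conj (F z)).re * ‖F z‖ ^ (p - 2) ∂μD ≤
        ∫ z, (‖g z‖ ^ p / p + ‖F z‖ ^ p * (1 - 1 / p)) ∂μD :=
      integral_mono (hprodint g hg) (hbound g hg) fun z => (young_complex hp (hFne z)).1
    rw [hboundint g hg hg1] at h3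
    calc τ ^ (p - 1) * ∫ z, (g z * conj (F z)).re * ‖F z‖ ^ (p - 2) ∂μD
        ≤ τ ^ (p - 1) * 1 := mul_le_mul_of_nonneg_left h3 hτp0.le
      _ = τ ^ (p - 1) := mul_one _
  refine ⟨k, F, inBergman_of hq0 hkd hk, inHardy_of hs0 hkd hcirc, ?_, ⟨hFB, hFone, hmax⟩, ?_, ?_⟩
  · -- `k` is not identically zero
    by_contra hcon
    push Not at hcon
    have h3 : phi k F = 0 := by
      unfold phi
      rw [area_eq]
      refine integral_eq_zero_of_ae ?_
      filter_upwards [ae_ball] with z hz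
      rw [hcon z hz]
      simp
    rw [h3] at hFval
    rw [zero_re] at hFval
    exact hτp0.ne hFval
  · -- uniqueness
    intro G hG z hz
    have h3 : (phi k F).re ≤ (phi k G).re := hG.2.2 F hFB hFone
    have h4 : ∫ z, (G z * conj (F z)).re * ‖F z‖ ^ (p - 2) ∂μD = 1 := by
      have h5 : (phi k G).re = (phi k F).re := le_antisymm (hmax G hG.1 hG.2.1) h3
      rw [hFval, hre G hG.1, integral_const_mul] at h5
      have h6 : τ ^ (p - 1) * ∫ z, (G z * conj (F z)).re * ‖F z‖ ^ (p - 2) ∂μD =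
          τ ^ (p - 1) * 1 := by rw [h5, mul_one]
      exact mul_left_cancel₀ hτp0.ne' h6
    have h5 : ∫ z, ((‖G z‖ ^ p / p + ‖F z‖ ^ p * (1 - 1 / p)) -
        (G z * conj (F z)).re * ‖F z‖ ^ (p - 2)) ∂μD = 0 := by
      rw [integral_sub (hbound G hG.1) (hprodint G hG.1), hboundint G hG.1 hG.2.1, h4, sub_self]
    rw [integral_eq_zero_iff_of_nonneg
      (fun z => sub_nonneg.2 (young_complex hp (hFne z)).1)
      ((hbound G hG.1).sub (hprodint G hG.1))] at h5
    have h6 : G =ᵐ[μD] F := by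
      filter_upwards [h5] with w hw
      refine (young_complex hp (hFne w)).2 ?_
      have : (‖G w‖ ^ p / p + ‖F w‖ ^ p * (1 - 1 / p)) -
        (G w * conj (F w)).re * ‖F w‖ ^ (p - 2) = 0 := hw
      linarith
    have h7 : G =ᵐ[volume.restrict (Metric.ball (0 : ℂ) 1)] F := by
      unfold μD at h6
      refine (Measure.ae_ennreal_smul_measure_iff ?_).1 h6
      exact ENNReal.inv_ne_zero.2 ENNReal.ofReal_ne_top
    exact Measure.eqOn_open_of_ae_eq h7 Metric.isOpen_ball hG.1.1.continuousOn hFd.continuousOn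
      (by simpa using hz)
  · -- `F` is not in the Hardy space
    rintro ⟨-, C, hC⟩
    set r : ℝ := 2 * (p - 1) * q₁ / p with hr
    have hr0 : 0 < r := by positivity
    refine M2_unbounded hr0 hRN (τ ^ ((p - 1) * q₁) * C) ?_
    intro ρ hρ0 hρ1
    have h3 : ∀ z, ‖exp ((r : ℂ) * L z)‖ ^ 2 =
        τ ^ ((p - 1) * q₁) * ‖F z‖ ^ ((p - 1) * q₁) := by
      intro z
      rw [hFnorm, Real.mul_rpow (Real.exp_pos _).le (inv_pos.2 hτ0).le, ← Real.exp_mul,
        Real.inv_rpow hτ0.le, norm_exp, re_ofReal_mul, ← Real.exp_nat_mul]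
      have h4 : τ ^ ((p - 1) * q₁) ≠ 0 := (Real.rpow_pos_of_pos hτ0 _).ne'
      have h5 : ((2 : ℕ) : ℝ) * (r * (L z).re) = 4 / p * (L z).re * ((p - 1) * q₁) := by
        rw [hr]
        push_cast
        field_simp
        ring
      rw [h5]
      field_simp
    have h6 : M2 (fun z => exp ((r : ℂ) * L z)) ρ =
        τ ^ ((p - 1) * q₁) * ∫ θ, ‖F (ρ * eit θ)‖ ^ ((p - 1) * q₁) ∂μT := by
      unfold M2
      simp_rw [h3]
      rw [integral_const_mul]
    have h7 := integral_μT (fun θ => ‖F (ρ * eit θ)‖ ^ ((p - 1) * q₁))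
    rw [smul_eq_mul] at h7
    calc M2 (fun z => exp ((r : ℂ) * Linf R N z)) ρ
        = τ ^ ((p - 1) * q₁) * ∫ θ, ‖F (ρ * eit θ)‖ ^ ((p - 1) * q₁) ∂μT := h6
      _ ≤ τ ^ ((p - 1) * q₁) * C := by
          refine mul_le_mul_of_nonneg_left ?_ (Real.rpow_pos_of_pos hτ0 _).le
          rw [h7]
          exact hC ρ hρ0 hρ1

end Pool.Agent.Results.MP_5c226d_an.HardyRegularityFails
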